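import Pool.Agent.T9h39.PZ.Fin
import Pool.Agent.T9h36.SK.Spec2

set_option autoImplicit false

namespace Pool.Agent.T9h39.PZ

theorem sharp_of_big (h : S_Big) : Pool.Agent.T9h36.SK.S_Sharp := by
  intro k hk δ hδ
  obtain ⟨m₀, hm₀⟩ := h k (by omega) δ hδ
  refine ⟨m₀, fun m hm => ?_⟩
  obtain ⟨M, h1, S, hS1, hS2, hS3⟩ := hm₀ m hm
  exact ⟨M, h1, ⟨⟨S, hS1, hS2, hS3⟩⟩⟩

end Pool.Agent.T9h39.PZ
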