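import Pool.Agent.T9h39.PZ.Fin
import Pool.Agent.T9h34.PZ.Rank
import Pool.Agent.T9h12.PZ.Struct
import Pool.Agent.T9h12.PZ.Conf
import Pool.Agent.T9h95.PZ.Fib
import Pool.Agent.T9h95.PZ.ExL
import Pool.Agent.T9h29.PZ.Avg
import Pool.Agent.T9h89.PZ.IsoP
import Pool.Agent.T9h67.PZ.Mult
import Pool.Agent.T9h67.PZ.SetP

set_option autoImplicit false

namespace Pool.Agent.T9h39.PZ

theorem confl : S_Conf :=
  Pool.Agent.T9h12.PZ.conf Pool.Agent.T9h34.PZ.rank Pool.Agent.T9h12.PZ.struct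

theorem big : S_Big :=
  fin Pool.Agent.T9h29.PZ.avg Pool.Agent.T9h95.PZ.fib confl Pool.Agent.T9h89.PZ.isoP
    Pool.Agent.T9h67.PZ.setP Pool.Agent.T9h67.PZ.mult Pool.Agent.T9h95.PZ.exL

end Pool.Agent.T9h39.PZ
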