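import Pool.Agent.T9h39.PZ.Spec

set_option autoImplicit false

namespace Pool.Agent.T9h39.PZ

open Finset

theorem pow_le_choose (k m : ℕ) : k ^ m ≤ (k * m).choose m := by
  induction m with
  | zero => simp
  | succ m ih =>
    have h : k * (m + 1) = k * m + k := by ring
    rw [h, Nat.add_choose_eq]
    calc k ^ (m + 1) = k ^ m * k := pow_succ k m
      _ ≤ (k * m).choose m * k.choose 1 := by
          rw [Nat.choose_one_right]; exact Nat.mul_le_mul_right k ih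
      _ ≤ ∑ ij ∈ antidiagonal (m + 1), (k * m).choose ij.1 * k.choose ij.2 :=
          Finset.single_le_sum (f := fun ij : ℕ × ℕ => (k * m).choose ij.1 * k.choose ij.2)
            (fun _ _ => Nat.zero_le _) (a := (m, 1)) (by simp)

theorem exists_d (n C T : ℕ) (hC : 1 ≤ C) (hT : 1 ≤ T) :
    ∃ d : ℕ, 1 ≤ d ∧ T ≤ C * d ^ (n + 2) ∧ d ^ (n + 2) ≤ 2 ^ (n + 2) * T := by
  classical
  have hex : ∃ d : ℕ, T ≤ C * d ^ (n + 2) := by
    refine ⟨T, ?_⟩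
    calc T = 1 * T ^ 1 := by ring
      _ ≤ C * T ^ (n + 2) := Nat.mul_le_mul hC (Nat.pow_le_pow_right hT (by omega))
  have hs := Nat.find_spec hex
  have hm : ∀ e, e < Nat.find hex → ¬ T ≤ C * e ^ (n + 2) := fun e he => Nat.find_min hex he
  set d := Nat.find hex with hd
  have hd1 : 1 ≤ d := by
    rcases Nat.eq_zero_or_pos d with h0 | h0
    · rw [h0] at hs
      simp at hs
      omega
    · exact h0
  refine ⟨d, hd1, hs, ?_⟩
  rcases Nat.lt_or_ge d 2 with h2 | h2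
  · have : d = 1 := by omega
    rw [this, one_pow]
    exact Nat.one_le_iff_ne_zero.mpr (Nat.mul_ne_zero (by positivity) (by omega))
  · have hlt := hm (d - 1) (by omega)
    have h1 : (d - 1) ^ (n + 2) ≤ T := by
      have : (d - 1) ^ (n + 2) ≤ C * (d - 1) ^ (n + 2) := Nat.le_mul_of_pos_left _ hC
      omega
    calc d ^ (n + 2) ≤ (2 * (d - 1)) ^ (n + 2) := Nat.pow_le_pow_left (by omega) _
      _ = 2 ^ (n + 2) * (d - 1) ^ (n + 2) := by rw [mul_pow]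
      _ ≤ 2 ^ (n + 2) * T := Nat.mul_le_mul_left _ h1

theorem chain {k m n d L N nB M Cn : ℕ} (hk : 2 ≤ k) (hd1 : 1 ≤ d)
    (hdT : d ^ (n + 2) ≤ 2 ^ (n + 2) * (2 * k ^ (2 * k) * L))
    (hL : L ^ (k - 2) ≤ 2 ^ (k - 2) * (k - 1) ^ ((k - 1) * m))
    (hM : d ^ n * nB ≤ 2 * (Cn * d ^ (n + 2)) ^ (k - 1) * M)
    (hN : (k - 1) ^ ((k - 1) * m) * N ≤ nB * (k * m + 1) ^ k) :
    N ≤ (2 * Cn ^ (k - 1) * (2 ^ (n + 3) * k ^ (2 * k)) ^ (k - 2) * 2 ^ (k - 2)) * d ^ 2 * M *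
      (k * m + 1) ^ k := by
  have hk1 : 1 ≤ k - 1 := by omega
  have hpos : 0 < (k - 1) ^ ((k - 1) * m) * d ^ n := by positivity
  refine Nat.le_of_mul_le_mul_left ?_ hpos
  have e1 : (d ^ (n + 2)) ^ (k - 1) = (d ^ n * d ^ 2) * (d ^ (n + 2)) ^ (k - 2) := by
    rw [← pow_add, ← pow_succ']
    congr 1
    omega
  have e2 : (d ^ (n + 2)) ^ (k - 2) ≤
      (2 ^ (n + 3) * k ^ (2 * k)) ^ (k - 2) * (2 ^ (k - 2) * (k - 1) ^ ((k - 1) * m)) := by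
    calc (d ^ (n + 2)) ^ (k - 2) ≤ (2 ^ (n + 2) * (2 * k ^ (2 * k) * L)) ^ (k - 2) :=
          Nat.pow_le_pow_left hdT _
      _ = (2 ^ (n + 3) * k ^ (2 * k)) ^ (k - 2) * L ^ (k - 2) := by
          rw [← mul_pow]; congr 1; ring
      _ ≤ _ := Nat.mul_le_mul_left _ hL
  calc (k - 1) ^ ((k - 1) * m) * d ^ n * N = ((k - 1) ^ ((k - 1) * m) * N) * d ^ n := by ring
    _ ≤ (nB * (k * m + 1) ^ k) * d ^ n := Nat.mul_le_mul_right _ hN
    _ = (d ^ n * nB) * (k * m + 1) ^ k := by ring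
    _ ≤ (2 * (Cn * d ^ (n + 2)) ^ (k - 1) * M) * (k * m + 1) ^ k := Nat.mul_le_mul_right _ hM
    _ = (2 * Cn ^ (k - 1) * (d ^ n * d ^ 2) * M * (k * m + 1) ^ k) *
          (d ^ (n + 2)) ^ (k - 2) := by
          rw [mul_pow, e1]; ring
    _ ≤ (2 * Cn ^ (k - 1) * (d ^ n * d ^ 2) * M * (k * m + 1) ^ k) *
          ((2 ^ (n + 3) * k ^ (2 * k)) ^ (k - 2) * (2 ^ (k - 2) * (k - 1) ^ ((k - 1) * m))) :=
          Nat.mul_le_mul_left _ e2
    _ = _ := by ring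

/-- polynomial against exponential -/
theorem poly_exp (k : ℕ) (K η : ℝ) (hη : 0 < η) :
    ∃ m₀ : ℕ, 1 ≤ m₀ ∧ ∀ m ≥ m₀, K * ((k * m + 1 : ℕ) : ℝ) ^ k ≤ ((2 : ℝ) ^ m) ^ η := by
  have hr : 1 < (2 : ℝ) ^ η := Real.one_lt_rpow (by norm_num) hη
  have h := tendsto_pow_const_div_const_pow_of_one_lt k hr
  have h2 : Filter.Tendsto (fun m : ℕ => (|K| * ((k : ℝ) + 1) ^ k) * ((m : ℝ) ^ k / ((2 : ℝ) ^ η) ^ m))
      Filter.atTop (nhds ((|K| * ((k : ℝ) + 1) ^ k) * 0)) := h.const_mul _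
  rw [mul_zero] at h2
  have h3 := h2.eventually (gt_mem_nhds (show (0 : ℝ) < 1 by norm_num))
  obtain ⟨m₁, hm₁⟩ := Filter.eventually_atTop.mp h3
  refine ⟨max m₁ 1, le_max_right _ _, fun m hm => ?_⟩
  have hm1 : (1 : ℝ) ≤ m := by exact_mod_cast le_trans (le_max_right _ _) hm
  have h4 := hm₁ m (le_trans (le_max_left _ _) hm)
  have hp : (0 : ℝ) < ((2 : ℝ) ^ η) ^ m := by positivity
  have h5 : (|K| * ((k : ℝ) + 1) ^ k) * (m : ℝ) ^ k ≤ ((2 : ℝ) ^ η) ^ m := by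
    have : (|K| * ((k : ℝ) + 1) ^ k) * (m : ℝ) ^ k / ((2 : ℝ) ^ η) ^ m < 1 := by
      rw [mul_div_assoc]; exact h4
    exact ((div_lt_one hp).mp this).le
  have e : ((2 : ℝ) ^ m) ^ η = ((2 : ℝ) ^ η) ^ m := by
    rw [← Real.rpow_natCast, ← Real.rpow_natCast, ← Real.rpow_mul (by norm_num),
      ← Real.rpow_mul (by norm_num), mul_comm]
  rw [e]
  refine le_trans ?_ h5
  have h6 : ((k * m + 1 : ℕ) : ℝ) ≤ ((k : ℝ) + 1) * m := by
    push_cast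
    nlinarith
  calc K * ((k * m + 1 : ℕ) : ℝ) ^ k ≤ |K| * ((k * m + 1 : ℕ) : ℝ) ^ k :=
        mul_le_mul_of_nonneg_right (le_abs_self K) (by positivity)
    _ ≤ |K| * (((k : ℝ) + 1) * m) ^ k := by
        apply mul_le_mul_of_nonneg_left _ (abs_nonneg K)
        exact pow_le_pow_left₀ (by positivity) h6 k
    _ = _ := by rw [mul_pow]; ring

theorem d_bound {n d N K₂ : ℕ} (hd : d ^ (n + 2) ≤ K₂ * N ^ 2) (hN : 1 ≤ N) (hK : 1 ≤ K₂)
    {η : ℝ} (hη : 4 / ((n : ℝ) + 2) ≤ η) :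
    (d : ℝ) ^ 2 ≤ (K₂ : ℝ) ^ 2 * (N : ℝ) ^ η := by
  have hn : (0 : ℝ) < (n : ℝ) + 2 := by positivity
  have hd' : (d : ℝ) ^ (n + 2) ≤ (K₂ : ℝ) * (N : ℝ) ^ 2 := by exact_mod_cast hd
  have hN1 : (1 : ℝ) ≤ N := by exact_mod_cast hN
  have hK1 : (1 : ℝ) ≤ K₂ := by exact_mod_cast hK
  have e1 : (d : ℝ) ^ 2 = ((d : ℝ) ^ (n + 2)) ^ (2 / ((n : ℝ) + 2)) := by
    rw [← Real.rpow_natCast (d : ℝ) (n + 2), ← Real.rpow_mul (by positivity)]
    have : ((n + 2 : ℕ) : ℝ) * (2 / ((n : ℝ) + 2)) = (2 : ℕ) := by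
      push_cast
      field_simp
    rw [this, Real.rpow_natCast]
  rw [e1]
  calc ((d : ℝ) ^ (n + 2)) ^ (2 / ((n : ℝ) + 2))
      ≤ ((K₂ : ℝ) * (N : ℝ) ^ 2) ^ (2 / ((n : ℝ) + 2)) :=
        Real.rpow_le_rpow (by positivity) hd' (by positivity)
    _ = (K₂ : ℝ) ^ (2 / ((n : ℝ) + 2)) * ((N : ℝ) ^ 2) ^ (2 / ((n : ℝ) + 2)) :=
        Real.mul_rpow (by positivity) (by positivity)
    _ ≤ (K₂ : ℝ) ^ 2 * (N : ℝ) ^ η := by
        apply mul_le_mul _ _ (by positivity) (by positivity)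
        · rw [← Real.rpow_natCast (K₂ : ℝ) 2]
          apply Real.rpow_le_rpow_of_exponent_le hK1
          rw [div_le_iff₀ hn]
          push_cast
          nlinarith [Nat.cast_nonneg (α := ℝ) n]
        · rw [← Real.rpow_natCast (N : ℝ) 2, ← Real.rpow_mul (by positivity)]
          apply Real.rpow_le_rpow_of_exponent_le hN1
          calc ((2 : ℕ) : ℝ) * (2 / ((n : ℝ) + 2)) = 4 / ((n : ℝ) + 2) := by push_cast; ring
            _ ≤ η := hη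

theorem fin : S_Fin := by
  intro hAvg hFib hConf hIso hSet hMult hL k hk δ hδ
  -- the dimension `n`
  obtain ⟨n₀, hn₀⟩ := exists_nat_gt (8 / δ)
  set n := n₀ + 1 with hn
  have hn1 : 1 ≤ n := by omega
  have hη : 4 / ((n : ℝ) + 2) ≤ δ / 2 := by
    have h1 : 8 / δ < (n : ℝ) + 2 := by
      rw [hn]; push_cast; linarith
    rw [div_lt_iff₀ hδ] at h1
    rw [div_le_iff₀ (by positivity)]
    linarith
  set Cn := k ^ (n + 1) * n * (k + 1) ^ k with hCn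
  have hCn1 : 1 ≤ Cn := Nat.one_le_iff_ne_zero.mpr (by positivity)
  set K₁ := 2 * Cn ^ (k - 1) * (2 ^ (n + 3) * k ^ (2 * k)) ^ (k - 2) * 2 ^ (k - 2) with hK₁
  set K₂ := 2 ^ (n + 4) * k ^ (2 * k) with hK₂
  have hK₂1 : 1 ≤ K₂ := Nat.one_le_iff_ne_zero.mpr (by positivity)
  obtain ⟨m₀, hm₀1, hm₀⟩ := poly_exp k ((K₁ : ℝ) * (K₂ : ℝ) ^ 2) (δ / 2) (by positivity)
  refine ⟨m₀, fun m hm => ?_⟩
  have hm1 : 1 ≤ m := le_trans hm₀1 hm
  obtain ⟨L, hLc, hL1, hL2⟩ := hL k m hk hm1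
  have hT : 1 ≤ 2 * k ^ (2 * k) * L := by
    have := hLc.1
    exact Nat.one_le_iff_ne_zero.mpr (Nat.mul_ne_zero (by positivity) (by omega))
  obtain ⟨d, hd1, hdA, hdT⟩ := exists_d n Cn _ hCn1 hT
  obtain ⟨A, _, _, φ, c, hcard, hinj, hsum, hsol⟩ := hSet k n d hk hn1 hd1
  have hcard' : Fintype.card A = Cn * d ^ (n + 2) := by
    rw [hcard, hCn]; ring
  obtain ⟨v, hv⟩ := hAvg hFib hConf k m L A (Fin n → Fin d) φ c hk hm1 hLc
    (by rw [hcard']; exact hdA) hsum hinj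
  have hpz := hIso k m A (Fin n → Fin d) φ c hk hm1 hsum hsol v
  set M := (iso φ v).card with hMdef
  refine ⟨M, ?_, hpz⟩
  have hBcard : Fintype.card (Fin n → Fin d) = d ^ n := by simp
  rw [hBcard, hcard'] at hv
  have hN := hMult k m hk hm1
  set N := (k * m).choose m with hNdef
  have h1 := chain hk hd1 hdT hL1 hv hN
  rw [← hK₁] at h1
  have hkN : k ^ m ≤ N := pow_le_choose k m
  have hN1 : 1 ≤ N := le_trans (Nat.one_le_pow _ _ (by omega)) hkN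
  have hd2 : d ^ (n + 2) ≤ K₂ * N ^ 2 := by
    calc d ^ (n + 2) ≤ 2 ^ (n + 2) * (2 * k ^ (2 * k) * L) := hdT
      _ ≤ 2 ^ (n + 2) * (2 * k ^ (2 * k) * (2 * (k - 1) ^ (2 * m))) :=
          Nat.mul_le_mul_left _ (Nat.mul_le_mul_left _ hL2)
      _ = K₂ * (k - 1) ^ (2 * m) := by rw [hK₂]; ring
      _ ≤ K₂ * N ^ 2 := by
          apply Nat.mul_le_mul_left
          rw [mul_comm 2 m, pow_mul]
          exact Nat.pow_le_pow_left (le_trans (Nat.pow_le_pow_left (by omega) m) hkN) 2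
  have h2 := d_bound hd2 hN1 hK₂1 hη
  have h3 := hm₀ m hm
  have hNpos : (0 : ℝ) < N := by exact_mod_cast hN1
  have h4 : ((2 : ℝ) ^ m) ^ (δ / 2) ≤ (N : ℝ) ^ (δ / 2) := by
    apply Real.rpow_le_rpow (by positivity) _ (by positivity)
    have : 2 ^ m ≤ N := le_trans (Nat.pow_le_pow_left hk m) hkN
    exact_mod_cast this
  have h5 : (N : ℝ) ≤ (K₁ : ℝ) * (d : ℝ) ^ 2 * M * ((k * m + 1 : ℕ) : ℝ) ^ k := by
    exact_mod_cast h1
  have h6 : (N : ℝ) ≤ (N : ℝ) ^ δ * M := by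
    calc (N : ℝ) ≤ (K₁ : ℝ) * (d : ℝ) ^ 2 * M * ((k * m + 1 : ℕ) : ℝ) ^ k := h5
      _ ≤ (K₁ : ℝ) * ((K₂ : ℝ) ^ 2 * (N : ℝ) ^ (δ / 2)) * M * ((k * m + 1 : ℕ) : ℝ) ^ k := by
          gcongr
      _ = (((K₁ : ℝ) * (K₂ : ℝ) ^ 2) * ((k * m + 1 : ℕ) : ℝ) ^ k) * ((N : ℝ) ^ (δ / 2) * M) := by
          ring
      _ ≤ (N : ℝ) ^ (δ / 2) * ((N : ℝ) ^ (δ / 2) * M) :=
          mul_le_mul_of_nonneg_right (le_trans h3 h4) (by positivity)
      _ = (N : ℝ) ^ δ * M := by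
          rw [← mul_assoc, ← Real.rpow_add hNpos]
          congr 2
          ring
  rw [Real.rpow_sub hNpos, Real.rpow_one, div_le_iff₀ (by positivity)]
  linarith

end Pool.Agent.T9h39.PZ
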