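import Mathlib

/-!
# Large puzzles (uniquely solvable, with `k` parts): definitions and pieces

Theorem (`S_Big`): for all `k ≥ 2`, `δ > 0` and all large `m` there are `M ≥ C(km, m) ^ (1 - δ)`
partitions of `Fin (k * m)` into `k` sets with `m` elements which cannot be mixed.

Proof (Coppersmith-Winograd, for `k` parts). Let `A` be a finite abelian group and `v x ∈ A` random.
A partition is a balanced function `σ : Fin (k * m) → Fin k`. It is in the bucket `b ∈ B` if the sum
of `v` over the part `r` is `φ r b` for all `r`. The equation `∑ a, φ (r a) (b a) = c` has only the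
obvious solutions, so a partition formed of parts from buckets is in one bucket. Two partitions in the
same bucket with a common part are a conflict; the partitions without conflict form a puzzle. Second
moment: for `σ, σ'` with `c` components of the bipartite graph (`σ x - σ' x`) the probability that both
are in the bucket `b` is `≤ |A| ^ (c - 2 k)`, and there are at most `L ^ (k - c)` such `σ'` for every
structure, where `j ^ (j m) ≤ L ^ (j - 1)` for `j ≤ k - 1`, `L ≈ (k - 1) ^ ((k - 1) m / (k - 2))`.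
-/

set_option autoImplicit false

namespace Pool.Agent.T9h39.PZ

open Finset

/-- `M` partitions of `Fin (k * m)` into `k` sets with `m` elements which cannot be mixed (the
structure `Puzzle` of T9h36/SK/Spec.lean as a proposition). -/
def HasPuzzle (k m M : ℕ) : Prop :=
  ∃ S : Fin M → Fin k → Finset (Fin (k * m)),
    (∀ j r, (S j r).card = m) ∧
    (∀ j r r', r ≠ r' → Disjoint (S j r) (S j r')) ∧
    ∀ (j : Fin k → Fin M) (r : Fin k → Fin k),
      (∀ a b, a ≠ b → Disjoint (S (j a) (r a)) (S (j b) (r b))) →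
      ∀ a b, j a = j b ∧ (a ≠ b → r a ≠ r b)

/-- All parts of `σ` have `m` elements. -/
def Bal {k : ℕ} {X : Type} [Fintype X] (m : ℕ) (σ : X → Fin k) : Prop :=
  ∀ i, (univ.filter fun x => σ x = i).card = m

/-- The sum of `v` over the part `i` of `σ` is `a i`. -/
def Sums {k : ℕ} {X A : Type} [Fintype X] [AddCommGroup A] (v : X → A) (σ : X → Fin k)
    (a : Fin k → A) : Prop :=
  ∀ i, ∑ x ∈ univ.filter (fun x => σ x = i), v x = a i

/-- A common part, with the same role. -/
def Share {k : ℕ} {X : Type} (σ σ' : X → Fin k) : Prop := ∃ r, ∀ x, σ x = r ↔ σ' x = r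

/-- The condition on `L`. -/
def LCond (k m L : ℕ) : Prop := 1 ≤ L ∧ ∀ j, 1 ≤ j → j ≤ k - 1 → j ^ (j * m) ≤ L ^ (j - 1)

open Classical in
/-- The number of balanced functions. -/
noncomputable def nBal (k m : ℕ) : ℕ := (univ.filter fun σ : Fin (k * m) → Fin k => Bal m σ).card

open Classical in
/-- The partitions without conflict, with their buckets. -/
noncomputable def iso {k m : ℕ} {A B : Type} [AddCommGroup A] [Fintype B]
    (φ : Fin k → B → A) (v : Fin (k * m) → A) : Finset (B × (Fin (k * m) → Fin k)) :=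
  univ.filter fun p => Bal m p.2 ∧ Sums v p.2 (fun i => φ i p.1) ∧
    ∀ σ', Bal m σ' → Sums v σ' (fun i => φ i p.1) → Share p.2 σ' → σ' = p.2

open Classical in
/-- (R) Rank. Let `∼` be the equivalence relation on `Fin k ⊕ Fin k` generated by
`inl (σ x) ∼ inr (σ' x)`. Every class contains some `inl i` (`σ'` is onto): let `g i`, `g' i` be a chosen
such representative of the class of `inl i`, `inr i` (so `g (g i) = g i`). Then `g (σ x) = g' (σ' x)`;
if the part `r` is common, the class of `inl r` is `{inl r, inr r}`, so `g i = g r` implies `i = r`.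
The map `T v = (part sums for σ, part sums for σ')`, `A ^ X → A ^ k × A ^ k`, is a homomorphism, so
every fibre has at most `|ker T| = |A| ^ |X| / |im T|` elements. Let `E u t` be `t` at `u = inl i` and
`- t` at `u = inr i`. `T (t δ_x) = E (inl (σ x)) t - E (inr (σ' x)) t`, so `E u t - E w t ∈ im T`
for all `u ∼ w` (`Relation.EqvGen` induction). The elements
`∑ u not a representative, (E u (t u) - E (rep u) (t u))` of `im T` are different for different `t`
(look at `u`), so `|im T| ≥ |A| ^ (2 k - c)` with `c = (image g).card`. -/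
def S_Rank : Prop := ∀ (k : ℕ) (X A : Type) [Fintype X] [AddCommGroup A] [Fintype A]
  (σ σ' : X → Fin k), Function.Surjective σ → Function.Surjective σ' →
  ∃ g g' : Fin k → Fin k, (∀ x, g (σ x) = g' (σ' x)) ∧
    (∀ r, (∀ x, σ x = r ↔ σ' x = r) → ∀ i, g i = g r → i = r) ∧
    ∀ a a' : Fin k → A,
      (univ.filter fun v : X → A => Sums v σ a ∧ Sums v σ' a').card * Fintype.card A ^ (2 * k) ≤
        Fintype.card A ^ (Fintype.card X + (univ.image g).card)

open Classical in
/-- (S) Structures. If there is no such `σ'`, nothing to prove; otherwise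
`m * #(g' ⁻¹ q) = #{x | g' (σ' x) = q} = #{x | g (σ x) = q} = m * #(g ⁻¹ q)`, so
`#(g' ⁻¹ q) = #(g ⁻¹ q) =: κ q`. The number of all `σ'` with `g' (σ' x) = g (σ x)` is
`∏ x, κ (g (σ x)) = ∏ i, κ (g i) ^ m = ∏ q ∈ image g, κ q ^ (κ q * m) ≤ ∏ q ∈ image g, L ^ (κ q - 1)`
`= L ^ (k - c)`; here `1 ≤ κ q ≤ k - 1` since `image g` has at least two elements. -/
def S_Struct : Prop := ∀ (k m L : ℕ) (X : Type) [Fintype X], 1 ≤ m → LCond k m L →
  ∀ (σ : X → Fin k) (g g' : Fin k → Fin k), Bal m σ → 2 ≤ (univ.image g).card →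
    (univ.filter fun σ' : X → Fin k => Bal m σ' ∧ ∀ x, g (σ x) = g' (σ' x)).card ≤
      L ^ (k - (univ.image g).card)

open Classical in
/-- (C) Conflicts; to prove: `S_Rank → S_Struct → S_Conf`. Every `σ'` in the sum gets a pair `(g, g')` by `S_Rank`; `c := (image g).card ≥ 2`
(a part is common and `k ≥ 2`). If `c = k`, then `g`, `g'` are bijective, `σ' = π ∘ σ` with
`π = g'⁻¹ g ≠ 1`, and a common `v` would give `a (π i) = a i` for all `i`, a contradiction to the
injectivity of `a`: the term is zero. If `c ≤ k - 1`: the term times `|A| ^ (2 k)` is at most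
`|A| ^ (k m + c)`, and by `S_Struct` at most `L ^ (k - c)` functions `σ'` have the same `(g, g')`;
there are `k ^ (2 k)` pairs `(g, g')`; and `|A| ^ (k - c) ≥ (2 k ^ (2 k) L) ^ (k - c) ≥
2 k ^ (2 k) L ^ (k - c)`. -/
def S_Conf : Prop := ∀ (k m L : ℕ) (A : Type) [AddCommGroup A] [Fintype A], 2 ≤ k → 1 ≤ m →
  LCond k m L → 2 * k ^ (2 * k) * L ≤ Fintype.card A →
  ∀ a : Fin k → A, Function.Injective a → ∀ σ : Fin (k * m) → Fin k, Bal m σ →
    2 * (∑ σ' ∈ univ.filter (fun σ' : Fin (k * m) → Fin k => Bal m σ' ∧ σ' ≠ σ ∧ Share σ σ'),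
      (univ.filter fun v : Fin (k * m) → A => Sums v σ a ∧ Sums v σ' a).card) *
        Fintype.card A ^ k ≤ Fintype.card A ^ (k * m)

open Classical in
/-- (N) The number of `v` with given part sums: the homomorphism `A ^ X → A ^ k` is surjective. -/
def S_Fib : Prop := ∀ (k : ℕ) (X A : Type) [Fintype X] [AddCommGroup A] [Fintype A]
  (σ : X → Fin k), Function.Surjective σ → ∀ a : Fin k → A,
    (univ.filter fun v : X → A => Sums v σ a).card * Fintype.card A ^ k =
      Fintype.card A ^ Fintype.card X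

/-- (V) Average over `v`. `∑ v, |iso φ v| ≥ ∑ b, ∑ σ, (#{v | Sums v σ (φ · b)} - ∑ σ' conflict,
#{v | Sums v σ (φ · b) ∧ Sums v σ' (φ · b)}) ≥ |B| nBal |A| ^ (k m - k) / 2` by `S_Fib` and `S_Conf`
(a pair `(b, σ)` in the bucket which is not in `iso` has a conflict). Only the `v` with
`∑ x, v x = c` have a nonempty `iso φ v` (condition on `c`), and there are `|A| ^ (k m - 1)` of them
(`k m ≥ 1`), so for one of them `2 |A| ^ (k - 1) |iso φ v| ≥ |B| nBal`. -/
def S_Avg : Prop := S_Fib → S_Conf → ∀ (k m L : ℕ) (A B : Type) [AddCommGroup A] [Fintype A]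
  [Fintype B] (φ : Fin k → B → A) (c : A), 2 ≤ k → 1 ≤ m → LCond k m L →
  2 * k ^ (2 * k) * L ≤ Fintype.card A → (∀ b, ∑ r, φ r b = c) →
  (∀ b, Function.Injective fun r => φ r b) →
  ∃ v : Fin (k * m) → A, Fintype.card B * nBal k m ≤
    2 * Fintype.card A ^ (k - 1) * (iso φ v).card

/-- (I) The partitions without conflict form a puzzle. Let `p` enumerate `iso φ v`,
`S j r = {x | (p j).2 x = r}`. If `S (j a) (r a)`, `a : Fin k`, are pairwise disjoint, they cover
`Fin (k * m)` (they have `m` elements each), so `∑ a, φ (r a) (p (j a)).1 = ∑ x, v x = ∑ r, φ r b = c`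
(for any `b = (p (j a)).1`), so `r` is injective and all `(p (j a)).1` are equal. The function
`σ' x = r a` for `x ∈ S (j a) (r a)` is balanced, has the right sums, and shares the part `r a` with
`(p (j a)).2`, so `σ' = (p (j a)).2` for all `a`. -/
def S_Iso : Prop := ∀ (k m : ℕ) (A B : Type) [AddCommGroup A] [Fintype B]
  (φ : Fin k → B → A) (c : A), 2 ≤ k → 1 ≤ m → (∀ b, ∑ r, φ r b = c) →
  (∀ (r : Fin k → Fin k) (b : Fin k → B), ∑ a, φ (r a) (b a) = c →
    Function.Injective r ∧ ∀ a a', b a = b a') →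
  ∀ v : Fin (k * m) → A, HasPuzzle k m (iso φ v).card

/-- (P) The group and the buckets. `A = (Fin n → ZMod (k d)) × ZMod (k n d²) × ZMod ((k + 1) ^ k)`,
`B = Fin n → Fin d`; with `|b|² = ∑ i, (b i)²`: `φ r b = (b, |b|², (k + 1) ^ r)` for `r < k - 1` and
`φ (k - 1) b = (- (k - 1) b, - (k - 1) |b|², (k + 1) ^ (k - 1))`, `c = (0, 0, ∑ r < k, (k + 1) ^ r)`.
If `∑ a, φ (r a) (b a) = c`: the third coordinate and the digits in base `k + 1` (both sums are
smaller than the modulus) give that `r` is a bijection; let `r a₀ = k - 1`. The first coordinate gives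
`∑ a ≠ a₀, b a = (k - 1) b a₀` modulo `k d`, so as integers, the second one
`∑ a ≠ a₀, |b a|² = (k - 1) |b a₀|²` as integers, so `∑ a ≠ a₀, |b a - b a₀|² = 0`. -/
def S_Set : Prop := ∀ k n d : ℕ, 2 ≤ k → 1 ≤ n → 1 ≤ d →
  ∃ (A : Type) (_ : AddCommGroup A) (_ : Fintype A) (φ : Fin k → (Fin n → Fin d) → A) (c : A),
    Fintype.card A = (k * d) ^ n * (k * n * d ^ 2) * (k + 1) ^ k ∧
    (∀ b, Function.Injective fun r => φ r b) ∧
    (∀ b, ∑ r, φ r b = c) ∧
    ∀ (r : Fin k → Fin k) (b : Fin k → Fin n → Fin d), ∑ a, φ (r a) (b a) = c →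
      Function.Injective r ∧ ∀ a a', b a = b a'

/-- (M) The number of balanced functions. `nBal k m * (m !) ^ k ≥ (k m)!` (every balanced `σ` is
`cls ∘ π` for at most `(m !) ^ k` permutations `π`; or by induction on `k`, or any Mathlib lemma on
`Nat.multinomial`), `(k m)! / (m !) ^ k = C(k m, m) * ((k - 1) m)! / (m !) ^ (k - 1)`, and
`(k - 1) ^ ((k - 1) m) = ∑ multinomials ≤ (number of terms) * largest`, where the balanced one is the
largest: `∏ (m i)! ≥ (m !) ^ (k - 1)` if `∑ m i = (k - 1) m` (`Nat.factorial` : `m ! * m ^ a ≤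
m ^ m * a ! `-type inequality), number of terms `≤ (k m + 1) ^ k`. (`Finset.sum_pow_of_commute`,
`Finset.sum_pow_eq_sum_piAntidiag`.) -/
def S_Mult : Prop := ∀ k m : ℕ, 2 ≤ k → 1 ≤ m →
  (k - 1) ^ ((k - 1) * m) * (k * m).choose m ≤ nBal k m * (k * m + 1) ^ k

/-- (L) `L = ⌈(k - 1) ^ ((k - 1) m / (k - 2))⌉` for `k ≥ 3`, `L = 1` for `k = 2`. (`j log j / (j - 1)`
is nondecreasing; equivalently `j ^ (j (k - 2)) ≤ (k - 1) ^ ((k - 1) (j - 1))` for `1 ≤ j ≤ k - 1`;
`(k - 1) / (k - 2) ≤ 2`.) -/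
def S_L : Prop := ∀ k m : ℕ, 2 ≤ k → 1 ≤ m → ∃ L : ℕ, LCond k m L ∧
  L ^ (k - 2) ≤ 2 ^ (k - 2) * (k - 1) ^ ((k - 1) * m) ∧ L ≤ 2 * (k - 1) ^ (2 * m)

/-- The theorem. -/
def S_Big : Prop := ∀ k : ℕ, 2 ≤ k → ∀ δ : ℝ, 0 < δ → ∃ m₀ : ℕ, ∀ m ≥ m₀, ∃ M : ℕ,
  (((k * m).choose m : ℕ) : ℝ) ^ (1 - δ) ≤ M ∧ HasPuzzle k m M

/-- (F) Assembly (helper39). `n` with `4 / (n + 2) ≤ δ / 2`, `Cn = k ^ (n + 1) * n * (k + 1) ^ k`,
`|A| = Cn * d ^ (n + 2)`, `d` minimal with `|A| ≥ 2 k ^ (2 k) L`, so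
`d ^ (n + 2) ≤ 2 ^ (n + 3) k ^ (2 k) L`;
`M ≥ d ^ n nBal / (2 |A| ^ (k - 1)) ≥ C(k m, m) / (K d² (k m + 1) ^ k)`, and
`d² ≤ K' C(k m, m) ^ (4 / (n + 2))` since `C(k m, m) ≥ k ^ m`. -/
def S_Fin : Prop := S_Avg → S_Fib → S_Conf → S_Iso → S_Set → S_Mult → S_L → S_Big

end Pool.Agent.T9h39.PZ
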